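import Pool.Agent.Y728.QS.Data
import Pool.Agent.H691R3.Comb
import Pool.Agent.H691R3.PrimeSum

set_option autoImplicit false
set_option linter.unusedSectionVars false

/-!
The counting theorem.
-/

namespace Pool.Agent.Y728.QS

open Pool.Agent.H691R3
open NumberField IsDedekindDomain Finset

variable {K : Type*} [Field K] [NumberField K]

lemma log_two_le_Lu (v : Pl K) : Real.log 2 ≤ Lu v := by
  rcases v with w | v
  · unfold Lu
    simp only [Sum.elim_inl]
    have := Real.log_le_sub_one_of_pos (x := 2) (by norm_num)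
    linarith
  · exact log_two_le_log_Nv v

/-- majorant of the weights -/
noncomputable def gmaj (η : ℝ) (v : Pl K) : ℝ :=
  Real.exp (2 * η * Real.log 2) * Real.exp (-(1 + 2 * η) * Lu v)

lemma gmaj_summable {η : ℝ} (hη : 0 < η) : Summable (gmaj (K := K) η) := by
  unfold gmaj
  refine Summable.mul_left _ ?_
  have h1 := nm_summable (K := K) (x := 1 + 2 * η) (by linarith)
  refine summable_of_sum_le (c := (Fintype.card (InfinitePlace K) : ℝ) +
    ∑' v : HeightOneSpectrum (𝓞 K), (nm v : ℝ) ^ (-(1 + 2 * η)))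
    (fun v => (Real.exp_pos _).le) fun s => ?_
  rw [← Finset.toLeft_disjSum_toRight (u := s), Finset.sum_disjSum]
  refine add_le_add ?_ ?_
  · calc ∑ w ∈ s.toLeft, Real.exp (-(1 + 2 * η) * Lu (Sum.inl w : Pl K))
        ≤ ∑ w ∈ s.toLeft, (1 : ℝ) := by
          refine Finset.sum_le_sum fun w _ => ?_
          refine Real.exp_le_one_iff.mpr ?_
          have := Lu_pos (Sum.inl w : Pl K)
          nlinarith [mul_pos hη this]
      _ ≤ (Fintype.card (InfinitePlace K) : ℝ) := by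
          rw [Finset.sum_const, nsmul_eq_mul, mul_one]
          exact_mod_cast Finset.card_le_univ _
  · calc ∑ v ∈ s.toRight, Real.exp (-(1 + 2 * η) * Lu (Sum.inr v : Pl K))
        = ∑ v ∈ s.toRight, (nm v : ℝ) ^ (-(1 + 2 * η)) := by
          refine Finset.sum_congr rfl fun v _ => ?_
          have h2 : (0 : ℝ) < nm v := by
            have := two_le_nm v
            exact_mod_cast (by omega : 0 < nm v)
          rw [Real.rpow_def_of_pos h2, mul_comm]
          rfl
      _ ≤ _ := h1.sum_le_tsum _ (fun v _ => by positivity)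

open Classical in
/-- the weight -/
noncomputable def fwt (Sp : Finset (Pl K)) (η : ℝ) {q : ℕ} (a : Pl K × Fin q × ℕ) : ℝ :=
  if thr Sp a.1 ≤ a.2.2 then Real.exp (-(cost Sp a) - η * wt a) else 0

lemma fwt_nonneg (Sp : Finset (Pl K)) (η : ℝ) {q : ℕ} (a : Pl K × Fin q × ℕ) :
    0 ≤ fwt Sp η a := by
  unfold fwt
  split_ifs
  · exact (Real.exp_pos _).le
  · exact le_rfl

lemma weights_bounded (Sp : Finset (Pl K)) (q : ℕ) {η : ℝ} (hη : 0 < η) :
    ∃ F0 : ℝ, ∀ s : Finset (Pl K × Fin q × ℕ), ∑ a ∈ s, fwt Sp η a ≤ F0 := by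
  classical
  set ρ : ℝ := Real.exp (-(η * Real.log 2)) with hρ
  have hlog : 0 < Real.log 2 := Real.log_pos (by norm_num)
  have hρ0 : 0 ≤ ρ := (Real.exp_pos _).le
  have hρ1 : ρ < 1 := by
    rw [hρ, Real.exp_lt_one_iff]
    have := mul_pos hη hlog
    linarith
  set G : Pl K → ℝ := fun v => (if v ∈ Sp then 1 else 0) + gmaj η v with hG
  have hG0 : ∀ v, 0 ≤ G v := by
    intro v
    rw [hG]
    simp only
    have h1 : 0 ≤ gmaj η v := by unfold gmaj; positivity
    split_ifs <;> linarith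
  have hGs : Summable G := by
    refine Summable.add ?_ (gmaj_summable hη)
    refine summable_of_ne_finset_zero (s := Sp) fun v hv => ?_
    rw [if_neg hv]
  have hH : Summable (fun b : Fin q × ℕ => (1 : ℝ) * ρ ^ b.2) := by
    refine Summable.mul_of_nonneg (f := fun _ : Fin q => (1 : ℝ)) (g := fun n : ℕ => ρ ^ n)
      (Summable.of_finite) (summable_geometric_of_lt_one hρ0 hρ1) (fun _ => zero_le_one)
      (fun n => pow_nonneg hρ0 n)
  have hGH : Summable (fun a : Pl K × Fin q × ℕ => G a.1 * (1 * ρ ^ a.2.2)) :=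
    Summable.mul_of_nonneg (f := G) (g := fun b : Fin q × ℕ => (1 : ℝ) * ρ ^ b.2) hGs hH
      (fun v => hG0 v) (fun b => mul_nonneg zero_le_one (pow_nonneg hρ0 _))
  refine ⟨∑' a : Pl K × Fin q × ℕ, G a.1 * (1 * ρ ^ a.2.2), fun s => ?_⟩
  have hle : ∀ a : Pl K × Fin q × ℕ, fwt Sp η a ≤ G a.1 * (1 * ρ ^ a.2.2) := by
    intro a
    have hnn : 0 ≤ G a.1 * (1 * ρ ^ a.2.2) :=
      mul_nonneg (hG0 _) (mul_nonneg zero_le_one (pow_nonneg hρ0 _))
    unfold fwt
    split_ifs with hthr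
    · have hLu := log_two_le_Lu a.1
      have hpow : ρ ^ a.2.2 = Real.exp (-(a.2.2 * (η * Real.log 2))) := by
        rw [hρ, ← Real.exp_nat_mul]
        congr 1
        ring
      have hm0 : (0 : ℝ) ≤ a.2.2 := Nat.cast_nonneg _
      by_cases hv : a.1 ∈ Sp
      · have h1 : 1 ≤ G a.1 := by
          rw [hG]
          simp only [if_pos hv]
          have h1 : 0 ≤ gmaj η a.1 := by unfold gmaj; positivity
          linarith
        have h2 : Real.exp (-(cost Sp a) - η * wt a) ≤ 1 * ρ ^ a.2.2 := by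
          rw [one_mul, hpow]
          refine Real.exp_le_exp.mpr ?_
          have h3 : cost Sp a = 0 := by unfold cost; rw [if_pos hv]
          rw [h3]
          unfold wt
          have h4 : (a.2.2 : ℝ) * (η * Real.log 2) ≤ a.2.2 * (η * Lu a.1) :=
            mul_le_mul_of_nonneg_left (mul_le_mul_of_nonneg_left hLu hη.le) hm0
          linarith
        calc Real.exp (-(cost Sp a) - η * wt a) ≤ 1 * ρ ^ a.2.2 := h2
          _ = 1 * (1 * ρ ^ a.2.2) := by ring
          _ ≤ G a.1 * (1 * ρ ^ a.2.2) :=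
            mul_le_mul_of_nonneg_right h1 (mul_nonneg zero_le_one (pow_nonneg hρ0 _))
      · have h1 : gmaj η a.1 ≤ G a.1 := by
          rw [hG]
          simp only [if_neg hv, zero_add, le_refl]
        have h2 : Real.exp (-(cost Sp a) - η * wt a) ≤ gmaj η a.1 * (1 * ρ ^ a.2.2) := by
          unfold gmaj
          rw [one_mul, hpow, ← Real.exp_add, ← Real.exp_add]
          refine Real.exp_le_exp.mpr ?_
          have h3 : cost Sp a = Lu a.1 := by unfold cost; rw [if_neg hv]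
          rw [h3]
          unfold wt
          have h5 : (2 : ℝ) ≤ a.2.2 := by
            have : thr Sp a.1 = 2 := by unfold thr; rw [if_neg hv]
            rw [this] at hthr
            exact_mod_cast hthr
          have h4 : 0 ≤ ((a.2.2 : ℝ) - 2) * (η * (Lu a.1 - Real.log 2)) :=
            mul_nonneg (by linarith) (mul_nonneg hη.le (by linarith))
          nlinarith
        exact h2.trans (mul_le_mul_of_nonneg_right h1
          (mul_nonneg zero_le_one (pow_nonneg hρ0 _)))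
    · exact hnn
  calc ∑ a ∈ s, fwt Sp η a ≤ ∑ a ∈ s, G a.1 * (1 * ρ ^ a.2.2) :=
        Finset.sum_le_sum fun a _ => hle a
    _ ≤ _ := hGH.sum_le_tsum _ (fun a _ =>
        mul_nonneg (hG0 _) (mul_nonneg zero_le_one (pow_nonneg hρ0 _)))

lemma expo_nonneg {q : ℕ} (hq : 2 ≤ q) {κ : ℝ} (hκ : κ ≤ q) : 0 ≤ expo q κ := by
  unfold expo
  have hq0 : (0 : ℝ) < q := by exact_mod_cast (by omega : 0 < q)
  refine le_min ?_ ((by norm_num : (0 : ℝ) ≤ 6 / 5).trans (le_max_right _ _))
  have : 2 * κ / q ≤ 2 := by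
    rw [div_le_iff₀ hq0]
    linarith
  linarith

/-- points with height in a window -/
theorem count_window {q : ℕ} (hq : 2 ≤ q) (T : Set (HeightOneSpectrum (𝓞 K))) (hT : T.Finite)
    (α : Fin q → K × K) (hα0 : ∀ l, α l ≠ 0)
    (hα : ∀ i j, i ≠ j → (α i).1 * (α j).2 - (α i).2 * (α j).1 ≠ 0)
    (κ : ℝ) (hκ0 : 0 ≤ κ) (C0 : ℝ) (hC0 : 0 ≤ C0) (δ : ℝ) (hδ : 0 < δ) :
    ∃ C : ℝ, 0 ≤ C ∧ ∀ X : ℝ, 1 ≤ X → ∀ E : Finset K,
      (∀ x ∈ E, Off α x ∧ NT T α x < (q - κ) * hr (aff x) + C0 ∧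
        X - 1 ≤ hr (aff x) ∧ hr (aff x) ≤ X) →
      (E.card : ℝ) ≤ C * Real.exp ((expo q κ + δ) * X) := by
  classical
  obtain ⟨Sp, C1, hC1, hB⟩ := exists_blocks (by omega : 0 < q) T hT α hα0 hα
  have hq0 : (0 : ℝ) < q := by exact_mod_cast (by omega : 0 < q)
  set η : ℝ := δ / q with hη
  have hηpos : 0 < η := div_pos hδ hq0
  obtain ⟨F0, hF0⟩ := weights_bounded Sp q hηpos
  set Cs : ℝ := C1 + κ + C0 with hCs
  have hCs0 : 0 ≤ Cs := by positivity
  set C3 : ℝ := 32 * Real.exp (3 * lossK K) with hC3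
  have hC30 : 0 ≤ C3 := by positivity
  refine ⟨2 * C3 * Real.exp (3 * Cs + δ * Cs + F0), by positivity, ?_⟩
  intro X hX E hE
  have hsel : ∀ x : K, ∃ I : Finset (Pl K × Fin q × ℕ), x ∈ E →
      (Set.InjOn (fun a : Pl K × Fin q × ℕ => a.1) I ∧
      (∀ a ∈ I, wt a ≤ lam a.1 (aff x) (α a.2.1)) ∧
      (∀ a ∈ I, thr Sp a.1 ≤ a.2.2) ∧
      (∑ a ∈ I, wt a ≤ q * (X + Cs)) ∧
      (∑ a ∈ I, cost Sp a) + max 0 (2 * X - ∑ a ∈ I, wt a) ≤ expo q κ * X + 3 * Cs) := by
    intro x
    by_cases hx : x ∈ E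
    · obtain ⟨hoff, hviol, hlow, hup⟩ := hE x hx
      obtain ⟨B, hB1, hB2, hB3, hB4, hB5⟩ := hB x hoff
      have hcost0 : ∀ a ∈ B, 0 ≤ cost Sp a := by
        intro a _
        unfold cost
        split_ifs
        · exact le_rfl
        · exact (Lu_pos _).le
      have hcost : ∀ a ∈ B, cost Sp a ≤ wt a / 2 := by
        intro a ha
        have h1 := hB3 a ha
        have hL := Lu_pos a.1
        unfold cost wt
        unfold thr at h1
        split_ifs at h1 ⊢ with h2
        · have : (0 : ℝ) ≤ a.2.2 := Nat.cast_nonneg _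
          positivity
        · have : (2 : ℝ) ≤ a.2.2 := by exact_mod_cast h1
          nlinarith
      have hl : ∀ l, ∑ a ∈ B with a.2.1 = l, wt a ≤ X + Cs := by
        intro l
        have := hB4 l
        linarith
      have hEx : κ * X - Cs ≤ ∑ a ∈ B, (wt a - cost Sp a) := by
        refine le_trans ?_ hB5
        have h1 : κ * (X - 1) ≤ κ * hr (aff x) := mul_le_mul_of_nonneg_left hlow hκ0
        have h2 : ((q : ℝ) - κ) * hr (aff x) = q * hr (aff x) - κ * hr (aff x) := by ring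
        have h3 : κ * (X - 1) = κ * X - κ := by ring
        linarith
      obtain ⟨I, hIB, hI⟩ := selection hq B wt (cost Sp) (fun a => a.2.1) hcost0 hcost X Cs κ
        (by linarith) hCs0 hl hEx
      refine ⟨I, fun _ => ⟨hB1.mono (by exact_mod_cast hIB), fun a ha => hB2 a (hIB ha),
        fun a ha => hB3 a (hIB ha), ?_, hI⟩⟩
      have hwt0 : ∀ a ∈ B, 0 ≤ wt a := fun a ha => by
        have h1 := hcost0 a ha
        have h2 := hcost a ha
        linarith
      calc ∑ a ∈ I, wt a ≤ ∑ a ∈ B, wt a :=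
            Finset.sum_le_sum_of_subset_of_nonneg hIB fun a ha _ => hwt0 a ha
        _ = ∑ l : Fin q, ∑ a ∈ B with a.2.1 = l, wt a :=
            (Finset.sum_fiberwise_of_maps_to (fun a _ => Finset.mem_univ a.2.1) wt).symm
        _ ≤ ∑ l : Fin q, (X + Cs) := Finset.sum_le_sum fun l _ => hl l
        _ = q * (X + Cs) := by
            rw [Finset.sum_const, Finset.card_univ, Fintype.card_fin, nsmul_eq_mul]
    · exact ⟨∅, fun h => absurd h hx⟩
  choose I hI using hsel
  have hcount := count_bound E I wt (cost Sp) (fwt Sp η) (fwt_nonneg Sp η) F0 hF0 η hηpos ?_ X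
    (expo q κ * X + 3 * Cs) (q * (X + Cs)) C3 hC30 ?_ ?_ ?_
  · refine hcount.trans (le_of_eq ?_)
    have h1 : η * (q * (X + Cs)) = δ * (X + Cs) := by
      rw [hη]; field_simp
    rw [h1, mul_assoc (2 * C3), ← Real.exp_add]
    congr 2
    ring
  · intro x hx a ha
    unfold fwt
    rw [if_pos ((hI x hx).2.2.1 a ha)]
  · intro x hx
    exact (hI x hx).2.2.2.2
  · intro x hx
    exact (hI x hx).2.2.2.1
  · intro x hx
    refine class_bound α hα0 (I x) (hI x hx).1 (E.filter (fun y => I y = I x)) X ?_ ?_ ?_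
    · intro y hy
      exact (hE y (Finset.mem_filter.mp hy).1).1
    · intro y hy
      exact (hE y (Finset.mem_filter.mp hy).1).2.2.2
    · intro y hy a ha
      rw [Finset.mem_filter] at hy
      rw [← hy.2] at ha
      exact (hI y hy.1).2.1 a ha

/-- points of bounded height -/
theorem count_all {q : ℕ} (hq : 2 ≤ q) (T : Set (HeightOneSpectrum (𝓞 K))) (hT : T.Finite)
    (α : Fin q → K × K) (hα0 : ∀ l, α l ≠ 0)
    (hα : ∀ i j, i ≠ j → (α i).1 * (α j).2 - (α i).2 * (α j).1 ≠ 0)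
    (κ : ℝ) (hκ0 : 0 ≤ κ) (hκq : κ ≤ q) (C0 : ℝ) (hC0 : 0 ≤ C0) (δ : ℝ) (hδ : 0 < δ) :
    ∃ C : ℝ, 0 ≤ C ∧ ∀ X : ℝ, 0 ≤ X → ∀ E : Finset K,
      (∀ x ∈ E, Off α x ∧ NT T α x < (q - κ) * hr (aff x) + C0 ∧ hr (aff x) ≤ X) →
      (E.card : ℝ) ≤ C * Real.exp ((expo q κ + δ) * X) := by
  classical
  obtain ⟨C, hC, hwin⟩ := count_window hq T hT α hα0 hα κ hκ0 C0 hC0 (δ / 2) (by positivity)
  have hexpo := expo_nonneg hq hκq
  refine ⟨C * (2 / δ) * Real.exp (expo q κ + δ), by positivity, ?_⟩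
  intro X hX E hE
  set N : ℕ := ⌊X⌋₊ + 1 with hN
  have hNX : (N : ℝ) ≤ X + 1 := by
    rw [hN]; push_cast
    have := Nat.floor_le hX
    linarith
  have h1 : (E.card : ℝ) = ∑ j ∈ Finset.range N,
      ((E.filter (fun x => ⌊hr (aff x)⌋₊ = j)).card : ℝ) := by
    have h2 := Finset.card_eq_sum_card_fiberwise (s := E) (t := Finset.range N)
      (f := fun x => ⌊hr (aff x)⌋₊) ?_
    · exact_mod_cast h2
    · intro x hx
      simp only [Finset.coe_range, Set.mem_Iio]
      rw [hN]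
      have := Nat.floor_le_floor (hE x hx).2.2
      omega
  have h3 : ∀ j ∈ Finset.range N, ((E.filter (fun x => ⌊hr (aff x)⌋₊ = j)).card : ℝ) ≤
      C * Real.exp ((expo q κ + δ / 2) * (X + 1)) := by
    intro j hj
    rw [Finset.mem_range] at hj
    have hjN : (j : ℝ) + 1 ≤ X + 1 := by
      have : ((j + 1 : ℕ) : ℝ) ≤ N := by exact_mod_cast hj
      push_cast at this
      linarith
    refine (hwin ((j : ℝ) + 1) (by have : (0 : ℝ) ≤ j := Nat.cast_nonneg j; linarith) _ ?_).trans ?_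
    · intro x hx
      rw [Finset.mem_filter] at hx
      obtain ⟨hx1, hx2⟩ := hx
      obtain ⟨hx3, hx4, hx5⟩ := hE x hx1
      refine ⟨hx3, hx4, ?_, ?_⟩
      · have := Nat.floor_le (hr_aff_nonneg x)
        rw [hx2] at this
        linarith
      · have := (Nat.lt_floor_add_one (hr (aff x))).le
        rw [hx2] at this
        exact this
    · refine mul_le_mul_of_nonneg_left ?_ hC
      refine Real.exp_le_exp.mpr ?_
      exact mul_le_mul_of_nonneg_left hjN (by positivity)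
  have h4 : (E.card : ℝ) ≤ (X + 1) * (C * Real.exp ((expo q κ + δ / 2) * (X + 1))) := by
    rw [h1]
    refine (Finset.sum_le_sum h3).trans ?_
    rw [Finset.sum_const, Finset.card_range, nsmul_eq_mul]
    exact mul_le_mul_of_nonneg_right hNX (by positivity)
  have h5 : X + 1 ≤ 2 / δ * Real.exp (δ / 2 * (X + 1)) := by
    have h6 := Real.add_one_le_exp (δ / 2 * (X + 1))
    have h7 : 2 / δ * (δ / 2 * (X + 1)) = X + 1 := by field_simp
    calc X + 1 = 2 / δ * (δ / 2 * (X + 1)) := h7.symm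
      _ ≤ 2 / δ * Real.exp (δ / 2 * (X + 1)) :=
        mul_le_mul_of_nonneg_left (by linarith) (by positivity)
  calc (E.card : ℝ) ≤ (X + 1) * (C * Real.exp ((expo q κ + δ / 2) * (X + 1))) := h4
    _ ≤ (2 / δ * Real.exp (δ / 2 * (X + 1))) *
        (C * Real.exp ((expo q κ + δ / 2) * (X + 1))) :=
        mul_le_mul_of_nonneg_right h5 (by positivity)
    _ = C * (2 / δ) * (Real.exp (δ / 2 * (X + 1)) *
        Real.exp ((expo q κ + δ / 2) * (X + 1))) := by ring
    _ = C * (2 / δ) * (Real.exp (expo q κ + δ) * Real.exp ((expo q κ + δ) * X)) := by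
        rw [← Real.exp_add, ← Real.exp_add]
        congr 2
        ring
    _ = _ := by ring

end Pool.Agent.Y728.QS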