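import Pool.Agent.Y728.QS.PForm
import Pool.Agent.Y728.QS.PMain

set_option autoImplicit false
set_option linter.unusedSectionVars false
set_option linter.unusedVariables false

/-!
Comparison with the local height given by the equation of the divisor.
-/

namespace Pool.Agent.Y728.QS

open Pool.Agent.H691R3
open NumberField IsDedekindDomain Finset

variable {K : Type*} [Field K] [NumberField K]

/-- value of the equation of the divisor -/
def Feq {g t : ℕ} (γ : Fin g → K × K) (A : Finset (Fin g)) (τ : Fin t → K × K → K × K)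
    (x y : K) : K :=
  (∏ i ∈ A, (x * (γ i).2 - 1 * (γ i).1)) *
    ∏ k, (y * (τ k (x, 1)).2 - 1 * (τ k (x, 1)).1)

/-- local height from an equation of bidegree `(a, b)` -/
noncomputable def lamS (v : HeightOneSpectrum (𝓞 K)) (a b : ℕ) (f x y : K) : ℝ :=
  -Real.log (fv v f / (max (fv v x) (fv v 1) ^ a * max (fv v y) (fv v 1) ^ b))

/-- the truncated counting function from the equation -/
noncomputable def NS (T : Set (HeightOneSpectrum (𝓞 K))) {g t : ℕ} (γ : Fin g → K × K)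
    (A : Finset (Fin g)) (deg : Fin t → ℕ) (τ : Fin t → K × K → K × K) (x y : K) : ℝ :=
  ∑ᶠ (v : HeightOneSpectrum (𝓞 K)) (_ : v ∉ T),
    min (lamS v (A.card + ∑ k, deg k) t (Feq γ A τ x y) x y) (Real.log (Nv v))

lemma neg_log_div {F P Q : ℝ} (hF : 0 < F) (hP : 0 < P) (hQ : 0 < Q) {a b : ℕ} :
    -Real.log (F / (P ^ a * Q ^ b)) = a * Real.log P + b * Real.log Q - Real.log F := by
  have h1 : P ^ a ≠ 0 := (pow_pos hP a).ne'
  have h2 : Q ^ b ≠ 0 := (pow_pos hQ b).ne'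
  rw [Real.log_div hF.ne' (mul_ne_zero h1 h2), Real.log_mul h1 h2, Real.log_pow, Real.log_pow]
  ring

lemma lamS_eq {g t : ℕ} (γ : Fin g → K × K) (hγ0 : ∀ i, γ i ≠ 0) (A : Finset (Fin g))
    (deg : Fin t → ℕ) (τ : Fin t → K × K → K × K) (x y : K)
    (hτ0 : ∀ k, τ k (aff x) ≠ 0)
    (hx : ∀ i ∈ A, (aff x).1 * (γ i).2 - (aff x).2 * (γ i).1 ≠ 0)
    (hy : ∀ k, (aff y).1 * (τ k (aff x)).2 - (aff y).2 * (τ k (aff x)).1 ≠ 0)
    (v : HeightOneSpectrum (𝓞 K)) :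
    (∑ i ∈ A, lamA (fv v) (aff x) (γ i) + ∑ k, lamA (fv v) (aff y) (τ k (aff x))) -
      lamS v (A.card + ∑ k, deg k) t (Feq γ A τ x y) x y =
      ∑ i ∈ A, ln (fv v) (γ i) +
        ∑ k, (ln (fv v) (τ k (aff x)) - deg k * ln (fv v) (aff x)) := by
  have h1 : ∑ i ∈ A, lamA (fv v) (aff x) (γ i) =
      A.card * ln (fv v) (aff x) + ∑ i ∈ A, ln (fv v) (γ i) -
        ∑ i ∈ A, Real.log (fv v ((aff x).1 * (γ i).2 - (aff x).2 * (γ i).1)) := by
    rw [Finset.sum_congr rfl fun i hi => lamA_eq (fv v) (aff_ne_zero x) (hγ0 i) (hx i hi),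
      Finset.sum_sub_distrib, Finset.sum_add_distrib, Finset.sum_const, nsmul_eq_mul]
    rfl
  have h2 : ∑ k, lamA (fv v) (aff y) (τ k (aff x)) =
      t * ln (fv v) (aff y) + ∑ k, ln (fv v) (τ k (aff x)) -
        ∑ k, Real.log (fv v ((aff y).1 * (τ k (aff x)).2 - (aff y).2 * (τ k (aff x)).1)) := by
    rw [Finset.sum_congr rfl fun k _ => lamA_eq (fv v) (aff_ne_zero y) (hτ0 k) (hy k),
      Finset.sum_sub_distrib, Finset.sum_add_distrib, Finset.sum_const, nsmul_eq_mul,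
      Finset.card_univ, Fintype.card_fin]
    rfl
  have hxp : 0 < max (fv v x) (fv v 1) := lt_max_of_lt_right (by rw [map_one]; exact one_pos)
  have hyp : 0 < max (fv v y) (fv v 1) := lt_max_of_lt_right (by rw [map_one]; exact one_pos)
  have hA : (∏ i ∈ A, (x * (γ i).2 - 1 * (γ i).1)) ≠ 0 :=
    Finset.prod_ne_zero_iff.mpr fun i hi => hx i hi
  have hB : (∏ k, (y * (τ k (x, 1)).2 - 1 * (τ k (x, 1)).1)) ≠ 0 :=
    Finset.prod_ne_zero_iff.mpr fun k _ => hy k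
  have h3 : lamS v (A.card + ∑ k, deg k) t (Feq γ A τ x y) x y =
      ((A.card : ℝ) + ∑ k, (deg k : ℝ)) * ln (fv v) (aff x) + t * ln (fv v) (aff y) -
        (∑ i ∈ A, Real.log (fv v ((aff x).1 * (γ i).2 - (aff x).2 * (γ i).1)) +
        ∑ k, Real.log (fv v ((aff y).1 * (τ k (aff x)).2 - (aff y).2 * (τ k (aff x)).1))) := by
    have hF : 0 < fv v (Feq γ A τ x y) := (fv v).pos (mul_ne_zero hA hB)
    unfold lamS
    rw [neg_log_div hF hxp hyp]
    have hF2 : fv v (Feq γ A τ x y) =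
        (∏ i ∈ A, fv v (x * (γ i).2 - 1 * (γ i).1)) *
          ∏ k, fv v (y * (τ k (x, 1)).2 - 1 * (τ k (x, 1)).1) := by
      unfold Feq
      rw [(fv v).map_mul, map_prod, map_prod]
    have hA' : ∀ i ∈ A, fv v (x * (γ i).2 - 1 * (γ i).1) ≠ 0 :=
      fun i hi => ((fv v).pos (hx i hi)).ne'
    have hB' : ∀ k ∈ Finset.univ, fv v (y * (τ k (x, 1)).2 - 1 * (τ k (x, 1)).1) ≠ 0 :=
      fun k _ => ((fv v).pos (hy k)).ne'
    rw [hF2, Real.log_mul (Finset.prod_ne_zero_iff.mpr hA') (Finset.prod_ne_zero_iff.mpr hB'),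
      Real.log_prod hA', Real.log_prod hB']
    have e1 : Real.log (max (fv v x) (fv v 1)) = ln (fv v) (aff x) := rfl
    have e2 : Real.log (max (fv v y) (fv v 1)) = ln (fv v) (aff y) := rfl
    have e3 : ∑ i ∈ A, Real.log (fv v (x * (γ i).2 - 1 * (γ i).1)) =
      ∑ i ∈ A, Real.log (fv v ((aff x).1 * (γ i).2 - (aff x).2 * (γ i).1)) := rfl
    have e4 : ∑ k, Real.log (fv v (y * (τ k (x, 1)).2 - 1 * (τ k (x, 1)).1)) =
      ∑ k, Real.log (fv v ((aff y).1 * (τ k (aff x)).2 - (aff y).2 * (τ k (aff x)).1)) := rfl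
    rw [e1, e2, e3, e4]
    push_cast
    ring
  rw [h1, h2, h3, Finset.sum_sub_distrib, ← Finset.sum_mul]
  ring

/-- the two truncated counting functions differ by a bounded amount -/
lemma NTp_le_NS (T : Set (HeightOneSpectrum (𝓞 K))) {g t : ℕ} (γ : Fin g → K × K)
    (hγ0 : ∀ i, γ i ≠ 0) (A : Finset (Fin g)) (deg : Fin t → ℕ) (τ : Fin t → K × K → K × K)
    (hτ : ∀ k, IsForm (deg k) (τ k)) :
    ∃ C : ℝ, 0 ≤ C ∧ ∀ x y : K,
      (∀ i ∈ A, (aff x).1 * (γ i).2 - (aff x).2 * (γ i).1 ≠ 0) →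
      (∀ k, (aff y).1 * (τ k (aff x)).2 - (aff y).2 * (τ k (aff x)).1 ≠ 0) →
      NTp T γ A (fun k x => τ k (aff x)) x y ≤ NS T γ A deg τ x y + C := by
  classical
  choose b hb0 hbf hb using fun k => form_bound (hτ k)
  set E2 : HeightOneSpectrum (𝓞 K) → ℝ := fun v =>
    ∑ i, |ln (fv v) (γ i)| + ∑ k, b k (Sum.inr v) with hE2
  have hE20 : ∀ v, 0 ≤ E2 v := fun v =>
    add_nonneg (Finset.sum_nonneg fun i _ => abs_nonneg _) (Finset.sum_nonneg fun k _ => hb0 k _)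
  have hE2f : {v | E2 v ≠ 0}.Finite := by
    refine ((Set.finite_iUnion fun k => hbf k).union
      (Set.finite_iUnion fun i => lnf_finite (hγ0 i))).subset ?_
    intro v hv
    simp only [Set.mem_union, Set.mem_iUnion, Set.mem_ofPred_eq]
    by_contra hcon
    push Not at hcon
    obtain ⟨h1, h2⟩ := hcon
    rw [Set.mem_ofPred_eq] at hv
    apply hv
    rw [hE2]
    simp only
    rw [Finset.sum_eq_zero (fun k _ => h1 k),
      Finset.sum_eq_zero (fun i _ => by rw [h2 i, abs_zero]), add_zero]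
  refine ⟨∑ v ∈ hE2f.toFinset, E2 v, Finset.sum_nonneg fun v _ => hE20 v, ?_⟩
  intro x y hx hy
  have hτ0 : ∀ k, τ k (aff x) ≠ 0 := fun k => (hb k (aff x) (aff_ne_zero x)).1
  set mine : HeightOneSpectrum (𝓞 K) → ℝ := fun v =>
    ∑ i ∈ A, lamA (fv v) (aff x) (γ i) + ∑ k, lamA (fv v) (aff y) (τ k (aff x)) with hmine
  set std : HeightOneSpectrum (𝓞 K) → ℝ := fun v =>
    lamS v (A.card + ∑ k, deg k) t (Feq γ A τ x y) x y with hstd
  have hdiff : ∀ v, |mine v - std v| ≤ E2 v := by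
    intro v
    have h1 := lamS_eq γ hγ0 A deg τ x y hτ0 hx hy v
    have h2 : mine v - std v = ∑ i ∈ A, ln (fv v) (γ i) +
        ∑ k, (ln (fv v) (τ k (aff x)) - deg k * ln (fv v) (aff x)) := h1
    rw [h2]
    refine (abs_add_le _ _).trans (add_le_add ?_ ?_)
    · refine (Finset.abs_sum_le_sum_abs _ _).trans ?_
      exact Finset.sum_le_sum_of_subset_of_nonneg (Finset.subset_univ _)
        fun i _ _ => abs_nonneg _
    · refine (Finset.abs_sum_le_sum_abs _ _).trans (Finset.sum_le_sum fun k _ => ?_)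
      exact (hb k (aff x) (aff_ne_zero x)).2 (Sum.inr v)
  have hmf : {v | mine v ≠ 0}.Finite := by
    refine ((Set.Finite.biUnion (s := (A : Set (Fin g))) A.finite_toSet fun i hi =>
      lamF_support_finite (aff_ne_zero x) (hγ0 i) (hx i hi)).union
      (Set.finite_iUnion fun k => lamF_support_finite (aff_ne_zero y) (hτ0 k) (hy k))).subset ?_
    intro v hv
    simp only [Set.mem_union, Set.mem_iUnion, Set.mem_ofPred_eq]
    by_contra hcon
    push Not at hcon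
    obtain ⟨h1, h2⟩ := hcon
    rw [Set.mem_ofPred_eq] at hv
    apply hv
    rw [hmine]
    simp only
    rw [Finset.sum_eq_zero (fun i hi => h1 i (by exact_mod_cast hi)),
      Finset.sum_eq_zero (fun k _ => h2 k), add_zero]
  set V : Finset (HeightOneSpectrum (𝓞 K)) := hE2f.toFinset ∪ hmf.toFinset with hV
  have hVm : ∀ v, v ∉ V → mine v = 0 ∧ std v = 0 ∧ E2 v = 0 := by
    intro v hv
    rw [hV, Finset.mem_union, Set.Finite.mem_toFinset, Set.Finite.mem_toFinset,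
      Set.mem_ofPred_eq, Set.mem_ofPred_eq] at hv
    push Not at hv
    obtain ⟨h1, h2⟩ := hv
    have h3 := hdiff v
    rw [h1, h2] at h3
    have h4 := abs_eq_zero.mp (le_antisymm h3 (abs_nonneg _))
    exact ⟨h2, by linarith, h1⟩
  have key : ∀ f : HeightOneSpectrum (𝓞 K) → ℝ, (∀ v, v ∉ V → f v = 0) →
      ∑ᶠ (v : HeightOneSpectrum (𝓞 K)) (_ : v ∉ T), min (f v) (Real.log (Nv v)) =
        ∑ v ∈ V.filter (fun v => v ∉ T), min (f v) (Real.log (Nv v)) := by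
    intro f hf
    simp only [← Set.mem_compl_iff]
    rw [finsum_mem_eq_sum_of_inter_support_eq (t := V.filter (fun v => v ∉ T))]
    · exact Finset.sum_congr rfl fun v _ => rfl
    ext v
    simp only [Set.mem_compl_iff, Set.mem_inter_iff, Function.mem_support, Finset.coe_filter,
      Set.mem_ofPred_eq]
    constructor
    · rintro ⟨hv1, hv2⟩
      refine ⟨⟨?_, hv1⟩, hv2⟩
      by_contra hcon
      apply hv2
      rw [hf v hcon]
      exact min_eq_left (log_Nv_pos v).le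
    · rintro ⟨⟨_, hv1⟩, hv2⟩
      exact ⟨hv1, hv2⟩
  have h1 : NTp T γ A (fun k x => τ k (aff x)) x y =
      ∑ v ∈ V.filter (fun v => v ∉ T), min (mine v) (Real.log (Nv v)) :=
    key mine fun v hv => (hVm v hv).1
  have h2 : NS T γ A deg τ x y =
      ∑ v ∈ V.filter (fun v => v ∉ T), min (std v) (Real.log (Nv v)) :=
    key std fun v hv => (hVm v hv).2.1
  rw [h1, h2]
  have h3 : ∑ v ∈ V.filter (fun v => v ∉ T), min (mine v) (Real.log (Nv v)) ≤
      ∑ v ∈ V.filter (fun v => v ∉ T), (min (std v) (Real.log (Nv v)) + E2 v) := by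
    refine Finset.sum_le_sum fun v _ => ?_
    have h4 := (abs_le.mp (hdiff v)).2
    have h5 := hE20 v
    rcases min_cases (std v) (Real.log (Nv v)) with h | h
    · rw [h.1]
      exact (min_le_left _ _).trans (by linarith)
    · rw [h.1]
      exact (min_le_right _ _).trans (by linarith)
  rw [Finset.sum_add_distrib] at h3
  have h6 : ∑ v ∈ V.filter (fun v => v ∉ T), E2 v ≤ ∑ v ∈ hE2f.toFinset, E2 v := by
    calc ∑ v ∈ V.filter (fun v => v ∉ T), E2 v ≤ ∑ v ∈ V, E2 v :=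
          Finset.sum_le_sum_of_subset_of_nonneg (Finset.filter_subset _ _) fun v _ _ => hE20 v
      _ = ∑ v ∈ hE2f.toFinset, E2 v := by
          symm
          refine Finset.sum_subset (Finset.subset_union_left) ?_
          intro v _ hv
          rw [Set.Finite.mem_toFinset, Set.mem_ofPred_eq, not_not] at hv
          exact hv
  linarith

/-- the counting theorem in the explicit setting -/
theorem pstd_count {g t : ℕ} (hg0 : 0 < g) (ht0 : 0 < t)
    (T : Set (HeightOneSpectrum (𝓞 K))) (hT : T.Finite)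
    (γ : Fin g → K × K) (hγ0 : ∀ i, γ i ≠ 0)
    (hγ : ∀ i j, i ≠ j → (γ i).1 * (γ j).2 - (γ i).2 * (γ j).1 ≠ 0)
    (A : Finset (Fin g)) (deg : Fin t → ℕ) (τ : Fin t → K × K → K × K)
    (hτ : ∀ k, IsForm (deg k) (τ k)) (S : Fin t → Fin t → Finset (Fin g))
    (c : Fin t → Fin t → K) (hc : ∀ k l, k ≠ l → c k l ≠ 0)
    (hS : ∀ k l, k ≠ l → (S k l).card = deg k + deg l)
    (hw : ∀ k l, k ≠ l → ∀ s : K × K, (τ k s).1 * (τ l s).2 - (τ k s).2 * (τ l s).1 =
      c k l * ∏ i ∈ S k l, (s.1 * (γ i).2 - s.2 * (γ i).1))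
    (hAS : ∀ k l, k ≠ l → Disjoint A (S k l))
    (hSS : ∀ k l m, k ≠ l → k ≠ m → l ≠ m → Disjoint (S k m) (S l m))
    (κ : ℝ) (hκ0 : 0 ≤ κ) (hκ2 : κ ≤ 2) (C0 : ℝ) (δ : ℝ) (hδ : 0 < δ) :
    ∃ C : ℝ, 0 ≤ C ∧ ∀ X : ℝ, 0 ≤ X → ∀ E : Finset (K × K),
      (∀ z ∈ E, (∀ i ∈ A, z.1 * (γ i).2 - 1 * (γ i).1 ≠ 0) ∧
        (∀ k, z.2 * (τ k (z.1, 1)).2 - 1 * (τ k (z.1, 1)).1 ≠ 0) ∧
        NS T γ A deg τ z.1 z.2 < (((A.card + ∑ k, deg k : ℕ) : ℝ) - κ) * hr (aff z.1) +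
          ((t : ℝ) - κ) * hr (aff z.2) + C0 ∧
        hr (aff z.1) ≤ X ∧ hr (aff z.2) ≤ X) →
      (E.card : ℝ) ≤ C * Real.exp ((max (2 * (2 - κ)) (10 / 3) + δ) * X) := by
  classical
  obtain ⟨F, hF1, hF2, hF3, hF4⟩ := exists_cfg γ hγ0 hγ A deg τ hτ S c hc hS hw hAS hSS
  obtain ⟨C1, hC1, hcmp⟩ := NTp_le_NS T γ hγ0 A deg τ hτ
  obtain ⟨C, hC, hall⟩ := pcount_all hg0 ht0 T hT F κ hκ0 hκ2 (C1 + max C0 0)
    (add_nonneg hC1 (le_max_right _ _)) δ hδ
  refine ⟨C, hC, fun X hX E hE => hall X hX E ?_⟩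
  intro z hz
  obtain ⟨h1, h2, h3, h4, h5⟩ := hE z hz
  refine ⟨?_, ?_, h4, h5⟩
  · intro k
    rw [hF3]
    exact h2 k
  · rw [hF1, hF2, hF3, hF4]
    have h6 := hcmp z.1 z.2 h1 h2
    push_cast at h3
    have h7 := le_max_left C0 0
    linarith

end Pool.Agent.Y728.QS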