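import Pool.Agent.Y728.QS.PData

set_option autoImplicit false
set_option linter.unusedSectionVars false
set_option linter.unusedVariables false

/-!
The blocks attached to a point; curves of degree at most two over the first line.
-/

namespace Pool.Agent.Y728.QS

open Pool.Agent.H691R3
open NumberField IsDedekindDomain Finset

variable {K : Type*} [Field K] [NumberField K]

/-- a configuration of curves -/
structure Cfg2 (K : Type*) [Field K] [NumberField K] (g t : ℕ) where
  γ : Fin g → K × K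
  A : Finset (Fin g)
  τ : Fin t → K → K × K
  S : Fin t → Fin t → Finset (Fin g)
  d : Fin t → ℝ
  E : Pl K → ℝ
  Ct : ℝ
  γ0 : ∀ i, γ i ≠ 0
  γne : ∀ i j, i ≠ j → (γ i).1 * (γ j).2 - (γ i).2 * (γ j).1 ≠ 0
  τ0 : ∀ k x, τ k x ≠ 0
  τne : ∀ x, Off γ x → ∀ k l, k ≠ l → (τ k x).1 * (τ l x).2 - (τ k x).2 * (τ l x).1 ≠ 0
  loc : ∀ v k l x, k ≠ l → Off γ x →
    lam v (τ k x) (τ l x) ≤ ∑ i ∈ S k l, lam v (aff x) (γ i) + E v
  E0 : ∀ v, 0 ≤ E v
  Efin : {v : HeightOneSpectrum (𝓞 K) | E (Sum.inr v) ≠ 0}.Finite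
  d0 : ∀ k, 0 ≤ d k
  d1 : ∀ k, d k ≤ 2
  Ct0 : 0 ≤ Ct
  ht : ∀ k x, |hr (τ k x) - d k * hr (aff x)| ≤ Ct
  AS : ∀ k l, k ≠ l → Disjoint A (S k l)
  SS : ∀ k l m, k ≠ l → k ≠ m → l ≠ m → Disjoint (S k m) (S l m)

/-- the point `(x, y)` is off the curves of the second kind -/
def Off3 {g t : ℕ} (F : Cfg2 K g t) (x y : K) : Prop := Off (fun k => F.τ k x) y

/-- Existence of the block decomposition. -/
theorem exists_qblocks {g t : ℕ} (hg0 : 0 < g) (ht0 : 0 < t)
    (T : Set (HeightOneSpectrum (𝓞 K))) (hT : T.Finite) (F : Cfg2 K g t) :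
    ∃ Sp : Finset (Pl K), ∃ C : ℝ, 0 ≤ C ∧ ∀ x y : K, Off F.γ x → Off3 F x y →
      ∃ B : Finset (UP K g t),
        Set.InjOn (fun u : UP K g t => u.1) B ∧
        (∀ u ∈ B, 1 ≤ u.2.1.2 → wx u ≤ lam u.1 (aff x) (F.γ u.2.1.1)) ∧
        (∀ u ∈ B, 1 ≤ u.2.2.2 → wy u ≤ lam u.1 (aff y) (F.τ u.2.2.1 x)) ∧
        (∀ u ∈ B, thr Sp u.1 ≤ mulp u) ∧
        (∀ i, ∑ u ∈ B with u.2.1.1 = i, wx u ≤ hr (aff x) + C) ∧
        (∀ k, ∑ u ∈ B with u.2.2.1 = k, wy u ≤ 2 * hr (aff x) + hr (aff y) + C) ∧
        ((F.A.card : ℝ) + ∑ k, F.d k) * hr (aff x) + t * hr (aff y) -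
          NTp T F.γ F.A F.τ x y - C ≤ ∑ u ∈ B, (wx u + wy u - costp Sp u) := by
  classical
  have : Nonempty (Fin g) := ⟨⟨0, hg0⟩⟩
  have : Nonempty (Fin t) := ⟨⟨0, ht0⟩⟩
  -- the special places
  set Sf : Finset (HeightOneSpectrum (𝓞 K)) :=
    ((hT.union (bad_finite F.γ F.γ0 F.γne)).union F.Efin).toFinset with hSf
  set Sp : Finset (Pl K) := (Finset.univ : Finset (InfinitePlace K)).disjSum Sf with hSp
  have hinl : ∀ w : InfinitePlace K, (Sum.inl w : Pl K) ∈ Sp := fun w => by
    rw [hSp, Finset.inl_mem_disjSum]; exact Finset.mem_univ w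
  have hinr : ∀ v : HeightOneSpectrum (𝓞 K), (Sum.inr v : Pl K) ∈ Sp ↔
      ((v ∈ T ∨ v ∈ Bad F.γ) ∨ F.E (Sum.inr v) ≠ 0) :=
    fun v => by
      rw [hSp, Finset.inr_mem_disjSum, hSf, Set.Finite.mem_toFinset, Set.mem_union,
        Set.mem_union, Set.mem_ofPred_eq]
  -- constants
  set M : Pl K → ℝ := fun v =>
    ∑ l : Fin g, ∑ j : Fin g, (|lam v (F.γ l) (F.γ j)| + loss v) with hM
  have hM0 : ∀ v l j, |lam v (F.γ l) (F.γ j)| + loss v ≤ M v := by
    intro v l j
    have h1 : |lam v (F.γ l) (F.γ j)| + loss v ≤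
        ∑ j : Fin g, (|lam v (F.γ l) (F.γ j)| + loss v) :=
      Finset.single_le_sum (f := fun j => |lam v (F.γ l) (F.γ j)| + loss v)
        (fun j _ => add_nonneg (abs_nonneg _) (loss_nonneg v)) (Finset.mem_univ j)
    refine h1.trans ?_
    exact Finset.single_le_sum
      (f := fun l => ∑ j : Fin g, (|lam v (F.γ l) (F.γ j)| + loss v))
      (fun l _ => Finset.sum_nonneg fun j _ => add_nonneg (abs_nonneg _) (loss_nonneg v))
      (Finset.mem_univ l)
  have hMnn : ∀ v, 0 ≤ M v := fun v => Finset.sum_nonneg fun l _ =>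
    Finset.sum_nonneg fun j _ => add_nonneg (abs_nonneg _) (loss_nonneg v)
  set Cv : Pl K → ℝ := fun v => 2 * Lu v + g * M v + t * (F.E v + loss v) with hCv
  have hCv0 : ∀ v, 0 ≤ Cv v := fun v => by
    rw [hCv]
    simp only
    have h1 := (Lu_pos v).le
    have h2 := mul_nonneg (Nat.cast_nonneg g : (0 : ℝ) ≤ g) (hMnn v)
    have h3 := mul_nonneg (Nat.cast_nonneg t : (0 : ℝ) ≤ t)
      (add_nonneg (F.E0 v) (loss_nonneg v))
    linarith
  set Csp : ℝ := ∑ v ∈ Sp, Cv v with hCsp
  have hCsp0 : 0 ≤ Csp := Finset.sum_nonneg fun v _ => hCv0 v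
  set Cα : ℝ := ∑ l : Fin g, |hr (F.γ l)| with hCα
  have hCα0 : 0 ≤ Cα := Finset.sum_nonneg fun l _ => abs_nonneg _
  have hCt : 0 ≤ (t : ℝ) * F.Ct := mul_nonneg (Nat.cast_nonneg _) F.Ct0
  have hCt1 : 0 ≤ F.Ct := F.Ct0
  have hLK := lossK_nonneg K
  refine ⟨Sp, lossK K + Csp + Cα + t * F.Ct + F.Ct, by positivity, ?_⟩
  intro x y hx hy
  have hax : aff x ≠ 0 := aff_ne_zero x
  have hay : aff y ≠ 0 := aff_ne_zero y
  -- the nearest points
  have hnx : ∀ v : Pl K, ∃ l : Fin g, ∀ j,
      lam v (aff x) (F.γ j) ≤ lam v (aff x) (F.γ l) :=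
    fun v => Finite.exists_max (fun l => lam v (aff x) (F.γ l))
  choose nx hnx using hnx
  have hny : ∀ v : Pl K, ∃ l : Fin t, ∀ j,
      lam v (aff y) (F.τ j x) ≤ lam v (aff y) (F.τ l x) :=
    fun v => Finite.exists_max (fun l => lam v (aff y) (F.τ l x))
  choose ny hny using hny
  set lx : Pl K → ℕ := fun v => ⌊lam v (aff x) (F.γ (nx v)) / Lu v⌋₊ with hlx
  set ly : Pl K → ℕ := fun v => ⌊lam v (aff y) (F.τ (ny v) x) / Lu v⌋₊ with hly
  -- a finite set of places
  set Vf : Finset (HeightOneSpectrum (𝓞 K)) :=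
    (Sf ∪ Finset.univ.biUnion (fun l : Fin g =>
      (lamF_support_finite hax (F.γ0 l) (hx l)).toFinset)) ∪
      Finset.univ.biUnion (fun k : Fin t =>
        (lamF_support_finite hay (F.τ0 k x) (hy k)).toFinset) with hVf
  have hVfx : ∀ v, v ∉ Vf → ∀ l, lamA (fv v) (aff x) (F.γ l) = 0 := by
    intro v hv l
    by_contra hcon
    apply hv
    rw [hVf, Finset.mem_union, Finset.mem_union, Finset.mem_biUnion]
    left; right
    exact ⟨l, Finset.mem_univ l, by rw [Set.Finite.mem_toFinset]; exact hcon⟩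
  have hVfy : ∀ v, v ∉ Vf → ∀ k, lamA (fv v) (aff y) (F.τ k x) = 0 := by
    intro v hv k
    by_contra hcon
    apply hv
    rw [hVf, Finset.mem_union, Finset.mem_biUnion]
    right
    exact ⟨k, Finset.mem_univ k, by rw [Set.Finite.mem_toFinset]; exact hcon⟩
  set P0 : Finset (Pl K) := (Finset.univ : Finset (InfinitePlace K)).disjSum Vf with hP0
  have hSpP0 : Sp ⊆ P0 := by
    rw [hSp, hP0]
    exact Finset.disjSum_mono (Finset.Subset.refl _)
      (Finset.subset_union_left.trans Finset.subset_union_left)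
  set Q0 : Finset (Pl K) := P0.filter (fun v => thr Sp v ≤ lx v + ly v) with hQ0
  set G : Pl K → UP K g t := fun v => (v, (nx v, lx v), (ny v, ly v)) with hG
  have hginj : Function.Injective G := fun a b hab => congrArg Prod.fst hab
  set B : Finset (UP K g t) := Q0.image G with hB
  have hmulg : ∀ v, mulp (G v) = lx v + ly v := fun v => rfl
  have hwx : ∀ v, 1 ≤ lx v → wx (G v) ≤ lam v (aff x) (F.γ (nx v)) := by
    intro v hv
    exact lev_le_lam v _ hv
  have hwy : ∀ v, 1 ≤ ly v → wy (G v) ≤ lam v (aff y) (F.τ (ny v) x) := by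
    intro v hv
    exact lev_le_lam v _ hv
  refine ⟨B, ?_, ?_, ?_, ?_, ?_, ?_, ?_⟩
  · intro a ha b hb hab
    rw [hB, Finset.mem_coe, Finset.mem_image] at ha hb
    obtain ⟨v, _, rfl⟩ := ha
    obtain ⟨u, _, rfl⟩ := hb
    have : v = u := hab
    rw [this]
  · intro a ha hi
    rw [hB, Finset.mem_image] at ha
    obtain ⟨v, hv, rfl⟩ := ha
    exact hwx v hi
  · intro a ha hi
    rw [hB, Finset.mem_image] at ha
    obtain ⟨v, hv, rfl⟩ := ha
    exact hwy v hi
  · intro a ha
    rw [hB, Finset.mem_image] at ha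
    obtain ⟨v, hv, rfl⟩ := ha
    exact (Finset.mem_filter.mp hv).2
  · intro l
    have h1 : ∑ a ∈ B with a.2.1.1 = l, wx a =
        ∑ v ∈ Q0.filter (fun v => nx v = l), wx (G v) := by
      rw [hB, Finset.filter_image, Finset.sum_image (fun a _ b _ hab => hginj hab)]
    rw [h1]
    have h2 : ∑ v ∈ Q0.filter (fun v => nx v = l), wx (G v) ≤
        ∑ v ∈ (Q0.filter (fun v => nx v = l)).filter (fun v => 1 ≤ lx v),
          lam v (aff x) (F.γ l) := by
      have h3 : ∑ v ∈ Q0.filter (fun v => nx v = l), wx (G v) =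
          ∑ v ∈ (Q0.filter (fun v => nx v = l)).filter (fun v => 1 ≤ lx v),
            wx (G v) := by
        symm
        refine Finset.sum_filter_of_ne fun v _ hv => ?_
        by_contra hcon
        have h4 : lx v = 0 := by omega
        apply hv
        have h5 : wx (G v) = ((lx v : ℕ) : ℝ) * Lu v := rfl
        rw [h5, h4]
        simp
      rw [h3]
      refine Finset.sum_le_sum fun v hv => ?_
      rw [Finset.mem_filter, Finset.mem_filter] at hv
      have := hwx v hv.2
      rwa [hv.1.2] at this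
    have h3 := sum_lam_le hax (F.γ0 l) (hx l)
      ((Q0.filter (fun v => nx v = l)).filter (fun v => 1 ≤ lx v))
    have h4 : hr (F.γ l) ≤ Cα := (le_abs_self _).trans
      (Finset.single_le_sum (f := fun l => |hr (F.γ l)|) (fun l _ => abs_nonneg _)
        (Finset.mem_univ l))
    linarith
  · intro k
    have h1 : ∑ a ∈ B with a.2.2.1 = k, wy a =
        ∑ v ∈ Q0.filter (fun v => ny v = k), wy (G v) := by
      rw [hB, Finset.filter_image, Finset.sum_image (fun a _ b _ hab => hginj hab)]
    rw [h1]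
    have h2 : ∑ v ∈ Q0.filter (fun v => ny v = k), wy (G v) ≤
        ∑ v ∈ (Q0.filter (fun v => ny v = k)).filter (fun v => 1 ≤ ly v),
          lam v (aff y) (F.τ k x) := by
      have h3 : ∑ v ∈ Q0.filter (fun v => ny v = k), wy (G v) =
          ∑ v ∈ (Q0.filter (fun v => ny v = k)).filter (fun v => 1 ≤ ly v),
            wy (G v) := by
        symm
        refine Finset.sum_filter_of_ne fun v _ hv => ?_
        by_contra hcon
        have h4 : ly v = 0 := by omega
        apply hv
        have h5 : wy (G v) = ((ly v : ℕ) : ℝ) * Lu v := rfl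
        rw [h5, h4]
        simp
      rw [h3]
      refine Finset.sum_le_sum fun v hv => ?_
      rw [Finset.mem_filter, Finset.mem_filter] at hv
      have := hwy v hv.2
      rwa [hv.1.2] at this
    have h3 := sum_lam_le hay (F.τ0 k x) (hy k)
      ((Q0.filter (fun v => ny v = k)).filter (fun v => 1 ≤ ly v))
    have h4 : hr (F.τ k x) ≤ 2 * hr (aff x) + F.Ct := by
      have h5 := (abs_le.mp (F.ht k x)).2
      have h6 := mul_le_mul_of_nonneg_right (F.d1 k) (hr_aff_nonneg x)
      linarith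
    linarith
  · -- the sum of all local heights
    have hsumx : (F.A.card : ℝ) * hr (aff x) + ∑ l ∈ F.A, hr (F.γ l) =
        ∑ v ∈ P0, ∑ l ∈ F.A, lam v (aff x) (F.γ l) := by
      rw [Finset.sum_comm]
      have h1 : ∀ l ∈ F.A, ∑ v ∈ P0, lam v (aff x) (F.γ l) = hr (aff x) + hr (F.γ l) := by
        intro l _
        rw [← sum_lam hax (F.γ0 l) (hx l), hP0, Finset.sum_disjSum]
        congr 1
        symm
        refine finsum_eq_sum_of_support_subset _ ?_
        intro v hv
        by_contra hcon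
        exact hv (hVfx v (by exact_mod_cast hcon) l)
      rw [Finset.sum_congr rfl h1, Finset.sum_add_distrib, Finset.sum_const, nsmul_eq_mul]
    have hsumy : (t : ℝ) * hr (aff y) + ∑ k, hr (F.τ k x) =
        ∑ v ∈ P0, ∑ k, lam v (aff y) (F.τ k x) := by
      rw [Finset.sum_comm]
      have h1 : ∀ k, ∑ v ∈ P0, lam v (aff y) (F.τ k x) = hr (aff y) + hr (F.τ k x) := by
        intro k
        rw [← sum_lam hay (F.τ0 k x) (hy k), hP0, Finset.sum_disjSum]
        congr 1
        symm
        refine finsum_eq_sum_of_support_subset _ ?_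
        intro v hv
        by_contra hcon
        exact hv (hVfy v (by exact_mod_cast hcon) k)
      rw [Finset.sum_congr rfl (fun k _ => h1 k), Finset.sum_add_distrib, Finset.sum_const,
        Finset.card_univ, Fintype.card_fin, nsmul_eq_mul]
    -- the truncated counting function
    set tot : Pl K → ℝ := fun v => ∑ l ∈ F.A, lam v (aff x) (F.γ l) +
      ∑ k, lam v (aff y) (F.τ k x) with htot
    set mn : Pl K → ℝ := fun v => min (tot v) (Lu v) with hmn
    have htot0 : ∀ v : HeightOneSpectrum (𝓞 K), 0 ≤ tot (Sum.inr v) := by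
      intro v
      refine add_nonneg (Finset.sum_nonneg fun l _ => ?_) (Finset.sum_nonneg fun k _ => ?_)
      · exact lamF_nonneg v hax (F.γ0 l) (hx l)
      · exact lamF_nonneg v hay (F.τ0 k x) (hy k)
    have hmn0 : ∀ v : HeightOneSpectrum (𝓞 K), 0 ≤ mn (Sum.inr v) :=
      fun v => le_min (htot0 v) (Lu_pos _).le
    have hNT : ∑ v ∈ P0 \ Sp, mn v ≤ NTp T F.γ F.A F.τ x y := by
      have h1 : NTp T F.γ F.A F.τ x y = ∑ v ∈ Vf.filter (fun v => v ∉ T), mn (Sum.inr v) := by
        unfold NTp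
        simp only [← Set.mem_compl_iff]
        rw [finsum_mem_eq_sum_of_inter_support_eq (t := Vf.filter (fun v => v ∉ T))]
        · exact Finset.sum_congr rfl fun v _ => rfl
        ext v
        simp only [Set.mem_compl_iff, Set.mem_inter_iff, Function.mem_support, Finset.coe_filter,
          Set.mem_ofPred_eq]
        constructor
        · rintro ⟨hv1, hv2⟩
          refine ⟨⟨?_, hv1⟩, hv2⟩
          by_contra hcon
          apply hv2
          rw [Finset.sum_eq_zero fun l _ => hVfx v hcon l,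
            Finset.sum_eq_zero fun k _ => hVfy v hcon k, add_zero]
          exact min_eq_left (log_Nv_pos v).le
        · rintro ⟨⟨_, hv1⟩, hv2⟩
          exact ⟨hv1, hv2⟩
      rw [h1]
      have h2 : P0 \ Sp = (Vf.filter (fun v =>
          ¬ ((v ∈ T ∨ v ∈ Bad F.γ) ∨ F.E (Sum.inr v) ≠ 0))).image Sum.inr := by
        ext v
        rcases v with w | v
        · simp only [Finset.mem_sdiff, Finset.mem_image, reduceCtorEq, and_false, exists_false,
            iff_false, not_and, not_not]
          exact fun _ => hinl w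
        · rw [Finset.mem_sdiff, hinr, hP0, Finset.inr_mem_disjSum, Finset.mem_image]
          constructor
          · rintro ⟨h3, h4⟩
            exact ⟨v, Finset.mem_filter.mpr ⟨h3, h4⟩, rfl⟩
          · rintro ⟨u, hu, huv⟩
            have : u = v := Sum.inr_injective huv
            subst this
            rw [Finset.mem_filter] at hu
            exact hu
      rw [h2, Finset.sum_image (fun a _ b _ hab => Sum.inr_injective hab)]
      refine Finset.sum_le_sum_of_subset_of_nonneg ?_ (fun v _ _ => hmn0 v)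
      intro v hv
      rw [Finset.mem_filter] at hv ⊢
      exact ⟨hv.1, fun h => hv.2 (Or.inl (Or.inl h))⟩
    -- comparison of other points with the nearest one
    have hotherx : ∀ v : Pl K, ∀ l, l ≠ nx v →
        lam v (aff x) (F.γ l) ≤ lam v (F.γ l) (F.γ (nx v)) + loss v := by
      intro v l hl
      have h1 := lam_triangle v (p := F.γ l) (q := aff x) (r := F.γ (nx v)) (F.γ0 l)
        hax (F.γ0 (nx v)) (F.γne l (nx v) hl) (wedge_ne_comm (hx l))
        (hx (nx v)) (lam v (aff x) (F.γ l)) (by rw [lam_comm]) (hnx v l)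
      linarith
    have hothery : ∀ v : Pl K, ∀ k, k ≠ ny v →
        lam v (aff y) (F.τ k x) ≤ ∑ i ∈ F.S k (ny v), lam v (aff x) (F.γ i) +
          (F.E v + loss v) := by
      intro v k hk
      have h1 := lam_triangle v (p := F.τ k x) (q := aff y) (r := F.τ (ny v) x) (F.τ0 k x)
        hay (F.τ0 (ny v) x) (F.τne x hx k (ny v) hk) (wedge_ne_comm (hy k))
        (hy (ny v)) (lam v (aff y) (F.τ k x)) (by rw [lam_comm]) (hny v k)
      have h2 := F.loc v k (ny v) x hk hx
      linarith
    -- the two sums together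
    have htotle : ∀ v : Pl K, ∃ U : Finset (Fin g),
        tot v ≤ lam v (aff y) (F.τ (ny v) x) + ∑ i ∈ U, lam v (aff x) (F.γ i) +
          t * (F.E v + loss v) := by
      intro v
      obtain ⟨U, hU⟩ := sum_sets_eq F.A (fun k => F.S k (ny v)) (ny v)
        (fun k hk => F.AS k (ny v) hk) (fun k l hk hl hkl => F.SS k l (ny v) hkl hk hl)
      refine ⟨U, ?_⟩
      rw [← hU (fun i => lam v (aff x) (F.γ i))]
      have h1 : ∑ k, lam v (aff y) (F.τ k x) = lam v (aff y) (F.τ (ny v) x) +
          ∑ k ∈ Finset.univ.erase (ny v), lam v (aff y) (F.τ k x) :=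
        (Finset.add_sum_erase _ _ (Finset.mem_univ (ny v))).symm
      have h2 : ∑ k ∈ Finset.univ.erase (ny v), lam v (aff y) (F.τ k x) ≤
          ∑ k ∈ Finset.univ.erase (ny v), (∑ i ∈ F.S k (ny v), lam v (aff x) (F.γ i) +
            (F.E v + loss v)) :=
        Finset.sum_le_sum fun k hk => hothery v k (Finset.ne_of_mem_erase hk)
      rw [Finset.sum_add_distrib] at h2
      have h3 : ∑ k ∈ Finset.univ.erase (ny v), (F.E v + loss v) ≤ t * (F.E v + loss v) := by
        rw [Finset.sum_const, nsmul_eq_mul]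
        refine mul_le_mul_of_nonneg_right ?_ (add_nonneg (F.E0 v) (loss_nonneg v))
        have h4 : (Finset.univ.erase (ny v)).card ≤ t := by
          refine (Finset.card_le_univ _).trans ?_
          rw [Fintype.card_fin]
        exact_mod_cast h4
      rw [htot]
      simp only
      linarith
    -- special places
    have hspec : ∀ v ∈ Sp, tot v ≤
        (if thr Sp v ≤ lx v + ly v then wx (G v) + wy (G v) - costp Sp (G v) else 0) +
          Cv v := by
      intro v hv
      have hthrv : thr Sp v = 1 := by unfold thr; rw [if_pos hv]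
      have hcostv : costp Sp (G v) = 0 := by unfold costp; rw [if_pos hv]
      have hLp := Lu_pos v
      obtain ⟨U, hU⟩ := htotle v
      have h5 := lam_le_lev v (lam v (aff x) (F.γ (nx v)))
      have h6 : ((⌊lam v (aff x) (F.γ (nx v)) / Lu v⌋₊ : ℕ) : ℝ) = (lx v : ℝ) := rfl
      rw [h6] at h5
      have h7 := lam_le_lev v (lam v (aff y) (F.τ (ny v) x))
      have h8 : ((⌊lam v (aff y) (F.τ (ny v) x) / Lu v⌋₊ : ℕ) : ℝ) = (ly v : ℝ) := rfl
      rw [h8] at h7
      have hlx0 : 0 ≤ (lx v : ℝ) * Lu v := mul_nonneg (Nat.cast_nonneg _) hLp.le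
      have hsumU : ∑ i ∈ U, lam v (aff x) (F.γ i) ≤ (lx v : ℝ) * Lu v + Lu v + g * M v := by
        have h9 : ∀ i ∈ U, lam v (aff x) (F.γ i) ≤
            (if i = nx v then (lx v : ℝ) * Lu v + Lu v else 0) + M v := by
          intro i _
          by_cases hi : i = nx v
          · rw [if_pos hi, hi]
            linarith [hMnn v]
          · rw [if_neg hi, zero_add]
            refine (hotherx v i hi).trans ?_
            exact (add_le_add (le_abs_self _) le_rfl).trans (hM0 v i (nx v))
        refine (Finset.sum_le_sum h9).trans ?_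
        rw [Finset.sum_add_distrib, Finset.sum_const, nsmul_eq_mul]
        refine add_le_add ?_ ?_
        · calc ∑ i ∈ U, (if i = nx v then (lx v : ℝ) * Lu v + Lu v else 0)
              ≤ ∑ i, (if i = nx v then (lx v : ℝ) * Lu v + Lu v else 0) := by
                refine Finset.sum_le_sum_of_subset_of_nonneg (Finset.subset_univ _) ?_
                intro i _ _
                split_ifs
                · linarith
                · exact le_rfl
            _ = (lx v : ℝ) * Lu v + Lu v := by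
                rw [Finset.sum_ite_eq' Finset.univ (nx v), if_pos (Finset.mem_univ _)]
        · refine mul_le_mul_of_nonneg_right ?_ (hMnn v)
          have h4 : U.card ≤ g := by
            refine (Finset.card_le_univ _).trans ?_
            rw [Fintype.card_fin]
          exact_mod_cast h4
      have hw : wx (G v) + wy (G v) = (lx v : ℝ) * Lu v + (ly v : ℝ) * Lu v := rfl
      have hCvv : Cv v = 2 * Lu v + g * M v + t * (F.E v + loss v) := rfl
      rw [hthrv, hcostv, hw, sub_zero, hCvv]
      split_ifs with h10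
      · linarith
      · have h11 : lx v = 0 := by omega
        have h12 : ly v = 0 := by omega
        rw [h11] at hsumU
        rw [h12] at h7
        push_cast at hsumU h7
        linarith
    -- ordinary places
    have hord : ∀ v ∈ P0 \ Sp, tot v - mn v ≤
        (if thr Sp v ≤ lx v + ly v then wx (G v) + wy (G v) - costp Sp (G v) else 0) := by
      intro v hv
      rw [Finset.mem_sdiff] at hv
      rcases v with w | v
      · exact absurd (hinl w) hv.2
      have hgood : ∀ l j, l ≠ j → lam (Sum.inr v : Pl K) (F.γ l) (F.γ j) = 0 := by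
        intro l j hlj
        by_contra hcon
        exact hv.2 ((hinr v).mpr (Or.inl (Or.inr ⟨l, j, hlj, hcon⟩)))
      have hEv : F.E (Sum.inr v) = 0 := by
        by_contra hcon
        exact hv.2 ((hinr v).mpr (Or.inr hcon))
      have hlossv : loss (Sum.inr v : Pl K) = 0 := by simp [loss]
      have hLp := Lu_pos (Sum.inr v : Pl K)
      obtain ⟨U, hU⟩ := htotle (Sum.inr v)
      rw [hEv, hlossv, add_zero, mul_zero, add_zero] at hU
      have hzero : ∀ l, l ≠ nx (Sum.inr v) →
          lam (Sum.inr v : Pl K) (aff x) (F.γ l) = 0 := by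
        intro l hl
        refine le_antisymm ?_ (lamF_nonneg v hax (F.γ0 l) (hx l))
        refine (hotherx (Sum.inr v) l hl).trans ?_
        rw [hgood l _ hl, hlossv, add_zero]
      obtain ⟨m, hm⟩ := lamF_discrete v hax (F.γ0 (nx (Sum.inr v))) (hx (nx (Sum.inr v)))
      have hm' : lam (Sum.inr v : Pl K) (aff x) (F.γ (nx (Sum.inr v))) =
          m * Lu (Sum.inr v : Pl K) := hm
      have hlxm : lx (Sum.inr v) = m := by
        rw [hlx]
        simp only
        rw [hm', mul_div_cancel_right₀ _ (Lu_pos _).ne', Nat.floor_natCast]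
      obtain ⟨m2, hm2⟩ := lamF_discrete v hay (F.τ0 (ny (Sum.inr v)) x) (hy (ny (Sum.inr v)))
      have hm2' : lam (Sum.inr v : Pl K) (aff y) (F.τ (ny (Sum.inr v)) x) =
          m2 * Lu (Sum.inr v : Pl K) := hm2
      have hlym : ly (Sum.inr v) = m2 := by
        rw [hly]
        simp only
        rw [hm2', mul_div_cancel_right₀ _ (Lu_pos _).ne', Nat.floor_natCast]
      have hsumU : ∑ i ∈ U, lam (Sum.inr v : Pl K) (aff x) (F.γ i) ≤
          (lx (Sum.inr v) : ℝ) * Lu (Sum.inr v : Pl K) := by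
        calc ∑ i ∈ U, lam (Sum.inr v : Pl K) (aff x) (F.γ i)
            ≤ ∑ i, lam (Sum.inr v : Pl K) (aff x) (F.γ i) :=
              Finset.sum_le_sum_of_subset_of_nonneg (Finset.subset_univ _)
                (fun i _ _ => lamF_nonneg v hax (F.γ0 i) (hx i))
          _ = lam (Sum.inr v : Pl K) (aff x) (F.γ (nx (Sum.inr v))) :=
              Finset.sum_eq_single _ (fun l _ hl => hzero l hl)
                (fun h => absurd (Finset.mem_univ _) h)
          _ = (lx (Sum.inr v) : ℝ) * Lu (Sum.inr v : Pl K) := by rw [hm', hlxm]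
      have htotv : tot (Sum.inr v) ≤
          ((lx (Sum.inr v) + ly (Sum.inr v) : ℕ) : ℝ) * Lu (Sum.inr v : Pl K) := by
        rw [hm2', ← hlym] at hU
        push_cast
        linarith
      have hthrv : thr Sp (Sum.inr v) = 2 := by unfold thr; rw [if_neg hv.2]
      have hcostv : costp Sp (G (Sum.inr v)) = Lu (Sum.inr v : Pl K) := by
        unfold costp; rw [if_neg hv.2]
      have hmnv : mn (Sum.inr v) = min (tot (Sum.inr v)) (Lu (Sum.inr v : Pl K)) := rfl
      have hw : wx (G (Sum.inr v)) + wy (G (Sum.inr v)) =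
          ((lx (Sum.inr v) + ly (Sum.inr v) : ℕ) : ℝ) * Lu (Sum.inr v : Pl K) := by
        have : wx (G (Sum.inr v)) + wy (G (Sum.inr v)) =
          (lx (Sum.inr v) : ℝ) * Lu (Sum.inr v : Pl K) +
            (ly (Sum.inr v) : ℝ) * Lu (Sum.inr v : Pl K) := rfl
        rw [this]
        push_cast
        ring
      rw [hmnv, hthrv, hcostv, hw]
      split_ifs with h6
      · have h7 : (2 : ℝ) ≤ ((lx (Sum.inr v) + ly (Sum.inr v) : ℕ) : ℝ) := by exact_mod_cast h6
        rcases min_cases (tot (Sum.inr v)) (Lu (Sum.inr v : Pl K)) with h8 | h8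
        · rw [h8.1]; nlinarith
        · rw [h8.1]; linarith
      · have h7 : lx (Sum.inr v) + ly (Sum.inr v) ≤ 1 := by omega
        have h8 : ((lx (Sum.inr v) + ly (Sum.inr v) : ℕ) : ℝ) ≤ 1 := by exact_mod_cast h7
        rw [min_eq_left (by nlinarith)]
        linarith
    -- conclusion
    have hBsum : ∑ a ∈ B, (wx a + wy a - costp Sp a) =
        ∑ v ∈ P0, (if thr Sp v ≤ lx v + ly v then
          wx (G v) + wy (G v) - costp Sp (G v) else 0) := by
      rw [hB, Finset.sum_image (fun a _ b _ hab => hginj hab), hQ0, Finset.sum_filter]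
    rw [hBsum]
    have hs1 : ∑ v ∈ P0, tot v = ∑ v ∈ P0 \ Sp, tot v + ∑ v ∈ Sp, tot v :=
      (Finset.sum_sdiff hSpP0).symm
    have hs2 : ∑ v ∈ P0, (if thr Sp v ≤ lx v + ly v then
          wx (G v) + wy (G v) - costp Sp (G v) else 0) =
        ∑ v ∈ P0 \ Sp, (if thr Sp v ≤ lx v + ly v then
          wx (G v) + wy (G v) - costp Sp (G v) else 0) +
          ∑ v ∈ Sp, (if thr Sp v ≤ lx v + ly v then
            wx (G v) + wy (G v) - costp Sp (G v) else 0) :=
      (Finset.sum_sdiff hSpP0).symm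
    have hs3 := Finset.sum_le_sum hord
    have hs4 := (Finset.sum_le_sum hspec).trans (le_of_eq Finset.sum_add_distrib)
    rw [Finset.sum_sub_distrib] at hs3
    have hs0 : ∑ v ∈ P0, tot v = ∑ v ∈ P0, ∑ l ∈ F.A, lam v (aff x) (F.γ l) +
        ∑ v ∈ P0, ∑ k, lam v (aff y) (F.τ k x) := by
      rw [← Finset.sum_add_distrib]
    have hs5 : -Cα ≤ ∑ l ∈ F.A, hr (F.γ l) := by
      have h1 : -(∑ l ∈ F.A, |hr (F.γ l)|) ≤ ∑ l ∈ F.A, hr (F.γ l) := by
        rw [← Finset.sum_neg_distrib]
        exact Finset.sum_le_sum fun l _ => neg_abs_le _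
      have h2 : ∑ l ∈ F.A, |hr (F.γ l)| ≤ Cα :=
        Finset.sum_le_sum_of_subset_of_nonneg (Finset.subset_univ _)
          (fun l _ _ => abs_nonneg _)
      linarith
    have hs6 : (∑ k, F.d k) * hr (aff x) - t * F.Ct ≤ ∑ k, hr (F.τ k x) := by
      have h1 : ∑ k, (F.d k * hr (aff x) - F.Ct) ≤ ∑ k, hr (F.τ k x) := by
        refine Finset.sum_le_sum fun k _ => ?_
        have := (abs_le.mp (F.ht k x)).1
        linarith
      rw [Finset.sum_sub_distrib, ← Finset.sum_mul, Finset.sum_const, Finset.card_univ,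
        Fintype.card_fin, nsmul_eq_mul] at h1
      exact h1
    rw [add_mul]
    linarith

end Pool.Agent.Y728.QS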