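import Pool.Agent.Y728.QS.QMain
import Pool.Agent.Y728.QS.UStd
import Pool.Agent.Y728.QS.PStd

set_option autoImplicit false
set_option linter.unusedSectionVars false
set_option linter.unusedVariables false

/-!
Graphs of rational functions of degree at most two give a configuration.
-/

namespace Pool.Agent.Y728.QS

open Pool.Agent.H691R3
open NumberField IsDedekindDomain Finset

section Abs

variable {K : Type*} [Field K] (f : AbsoluteValue K ℝ)

lemma na_sum_le (hna : ∀ a b, f (a + b) ≤ max (f a) (f b)) {ι : Type*} (s : Finset ι)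
    (a : ι → K) (M : ℝ) (hM : 0 ≤ M) (h : ∀ i ∈ s, f (a i) ≤ M) : f (∑ i ∈ s, a i) ≤ M := by
  classical
  induction s using Finset.induction_on with
  | empty => simpa using hM
  | insert i s hi ih =>
    rw [Finset.sum_insert hi]
    exact (hna _ _).trans (max_le (h i (Finset.mem_insert_self _ _))
      (ih fun j hj => h j (Finset.mem_insert_of_mem hj)))

lemma na_upper (hna : ∀ a b, f (a + b) ≤ max (f a) (f b)) (P : Polynomial K) (d : ℕ)
    (hd : P.natDegree ≤ d) (hc : ∀ i, f (P.coeff i) ≤ 1) (x : K) :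
    f (P.eval x) ≤ max (f x) 1 ^ d := by
  rw [Polynomial.eval_eq_sum_range' (Nat.lt_succ_of_le hd)]
  have h1 : (1 : ℝ) ≤ max (f x) 1 := le_max_right _ _
  refine na_sum_le f hna _ _ _ (by positivity) fun i hi => ?_
  rw [f.map_mul, f.map_pow]
  have h2 : f x ^ i ≤ max (f x) 1 ^ d := by
    refine (pow_le_pow_left₀ (f.nonneg _) (le_max_left _ _) i).trans
      (pow_le_pow_right₀ h1 ?_)
    rw [Finset.mem_range] at hi
    omega
  calc f (P.coeff i) * f x ^ i ≤ 1 * f x ^ i :=
        mul_le_mul_of_nonneg_right (hc i) (pow_nonneg (f.nonneg _) _)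
    _ = f x ^ i := one_mul _
    _ ≤ _ := h2

lemma na_lead (hna : ∀ a b, f (a + b) ≤ max (f a) (f b)) (P : Polynomial K)
    (hc : ∀ i, f (P.coeff i) ≤ 1) (hl : f P.leadingCoeff = 1) (x : K) (hx : 1 < f x) :
    f x ^ P.natDegree ≤ f (P.eval x) := by
  set d := P.natDegree with hd
  have hx0 : 0 < f x := by linarith
  have hpow : 0 < f x ^ d := by positivity
  have he : P.eval x = ∑ i ∈ Finset.range d, P.coeff i * x ^ i + P.leadingCoeff * x ^ d := by
    rw [Polynomial.eval_eq_sum_range, Finset.sum_range_succ]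
    rfl
  have hrest : f (∑ i ∈ Finset.range d, P.coeff i * x ^ i) ≤ f x ^ d / f x := by
    refine na_sum_le f hna _ _ _ (by positivity) fun i hi => ?_
    rw [f.map_mul, f.map_pow, le_div_iff₀ hx0, mul_assoc, ← pow_succ]
    rw [Finset.mem_range] at hi
    calc f (P.coeff i) * f x ^ (i + 1) ≤ 1 * f x ^ (i + 1) :=
          mul_le_mul_of_nonneg_right (hc i) (pow_nonneg (f.nonneg _) _)
      _ = f x ^ (i + 1) := one_mul _
      _ ≤ f x ^ d := pow_le_pow_right₀ hx.le (by omega)
  have hrest2 : f (∑ i ∈ Finset.range d, P.coeff i * x ^ i) < f x ^ d := by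
    refine hrest.trans_lt ?_
    rw [div_lt_iff₀ hx0]
    nlinarith
  have h1 : f (P.leadingCoeff * x ^ d) ≤
      max (f (P.eval x)) (f (∑ i ∈ Finset.range d, P.coeff i * x ^ i)) := by
    have h2 : P.leadingCoeff * x ^ d = P.eval x + -(∑ i ∈ Finset.range d, P.coeff i * x ^ i) := by
      rw [he]; ring
    rw [h2]
    refine (hna _ _).trans ?_
    rw [f.map_neg]
  rw [f.map_mul, f.map_pow, hl, one_mul] at h1
  rcases le_max_iff.mp h1 with h | h
  · exact h
  · exact absurd h (not_le.mpr hrest2)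

/-- exact size for polynomials with good reduction -/
lemma na_eq (hna : ∀ a b, f (a + b) ≤ max (f a) (f b)) (P Q A B : Polynomial K)
    (hAB : A * P + B * Q = 1) (d : ℕ) (hP : P.natDegree ≤ d) (hQ : Q.natDegree ≤ d)
    (hcP : ∀ i, f (P.coeff i) ≤ 1) (hcQ : ∀ i, f (Q.coeff i) ≤ 1)
    (hcA : ∀ i, f (A.coeff i) ≤ 1) (hcB : ∀ i, f (B.coeff i) ≤ 1)
    (hl : (f P.leadingCoeff = 1 ∧ P.natDegree = d) ∨ (f Q.leadingCoeff = 1 ∧ Q.natDegree = d))
    (x : K) : max (f (P.eval x)) (f (Q.eval x)) = max (f x) 1 ^ d := by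
  refine le_antisymm (max_le (na_upper f hna P d hP hcP x) (na_upper f hna Q d hQ hcQ x)) ?_
  rcases le_or_gt (f x) 1 with hx | hx
  · rw [max_eq_right hx, one_pow]
    have h2 := congrArg (Polynomial.eval x) hAB
    rw [Polynomial.eval_add, Polynomial.eval_mul, Polynomial.eval_mul,
      Polynomial.eval_one] at h2
    have hA := na_upper f hna A A.natDegree le_rfl hcA x
    have hB := na_upper f hna B B.natDegree le_rfl hcB x
    rw [max_eq_right hx, one_pow] at hA hB
    have h3 : (1 : ℝ) ≤ max (f (A.eval x * P.eval x)) (f (B.eval x * Q.eval x)) := by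
      refine le_trans (le_of_eq ?_) (hna _ _)
      rw [h2, f.map_one]
    rw [f.map_mul, f.map_mul] at h3
    refine h3.trans (max_le_max ?_ ?_)
    · calc f (A.eval x) * f (P.eval x) ≤ 1 * f (P.eval x) :=
            mul_le_mul_of_nonneg_right hA (f.nonneg _)
        _ = _ := one_mul _
    · calc f (B.eval x) * f (Q.eval x) ≤ 1 * f (Q.eval x) :=
            mul_le_mul_of_nonneg_right hB (f.nonneg _)
        _ = _ := one_mul _
  · rw [max_eq_left hx.le]
    rcases hl with ⟨h1, h2⟩ | ⟨h1, h2⟩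
    · have h3 := na_lead f hna P hcP h1 x hx
      rw [h2] at h3
      exact h3.trans (le_max_left _ _)
    · have h3 := na_lead f hna Q hcQ h1 x hx
      rw [h2] at h3
      exact h3.trans (le_max_right _ _)

end Abs

variable {K : Type*} [Field K] [NumberField K]

lemma coeff_finite (P : Polynomial K) :
    {v : HeightOneSpectrum (𝓞 K) | ¬ ∀ i, fv v (P.coeff i) ≤ 1}.Finite := by
  have h : (⋃ i ∈ P.support, {v : HeightOneSpectrum (𝓞 K) | fv v (P.coeff i) ≠ 1}).Finite := by
    refine Set.Finite.biUnion P.support.finite_toSet fun i hi => ?_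
    exact fv_support_finite (Polynomial.mem_support_iff.mp hi)
  refine h.subset ?_
  intro v hv
  rw [Set.mem_ofPred_eq] at hv
  push Not at hv
  obtain ⟨i, hi⟩ := hv
  have hne : P.coeff i ≠ 0 := by
    intro h0
    rw [h0, map_zero] at hi
    linarith
  simp only [Set.mem_iUnion, Set.mem_ofPred_eq]
  exact ⟨i, Polynomial.mem_support_iff.mpr hne, hi.ne'⟩

/-- comparison of sizes at all places -/
lemma rat_bound (P Q : Polynomial K) (h : IsCoprime P Q) :
    ∃ b : Pl K → ℝ, (∀ v, 0 ≤ b v) ∧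
      {v : HeightOneSpectrum (𝓞 K) | b (Sum.inr v) ≠ 0}.Finite ∧
      ∀ x : K, ((P.eval x, Q.eval x) : K × K) ≠ 0 ∧ ∀ v,
        |ln (av v) (P.eval x, Q.eval x) -
          (max P.natDegree Q.natDegree : ℕ) * ln (av v) (x, 1)| ≤ b v := by
  classical
  choose b0 hb0 hb using fun v : Pl K => poly_bound (av v) P Q h
  obtain ⟨w0⟩ : Nonempty (InfinitePlace K) := inferInstance
  obtain ⟨A, B, hAB⟩ := h
  set d : ℕ := max P.natDegree Q.natDegree with hd
  have hlead : (P ≠ 0 ∧ P.natDegree = d) ∨ (Q ≠ 0 ∧ Q.natDegree = d) := by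
    rcases le_total P.natDegree Q.natDegree with hPQ | hPQ
    · have hdQ : d = Q.natDegree := max_eq_right hPQ
      by_cases hQ0 : Q = 0
      · left
        refine ⟨?_, ?_⟩
        · rintro rfl
          rw [hQ0] at hAB
          simp at hAB
        · rw [hdQ, hQ0, Polynomial.natDegree_zero]
          rw [hQ0, Polynomial.natDegree_zero] at hPQ
          omega
      · exact Or.inr ⟨hQ0, hdQ.symm⟩
    · have hdP : d = P.natDegree := max_eq_left hPQ
      by_cases hP0 : P = 0
      · right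
        refine ⟨?_, ?_⟩
        · rintro rfl
          rw [hP0] at hAB
          simp at hAB
        · rw [hdP, hP0, Polynomial.natDegree_zero]
          rw [hP0, Polynomial.natDegree_zero] at hPQ
          omega
      · exact Or.inl ⟨hP0, hdP.symm⟩
  obtain ⟨R, hR0, hR⟩ : ∃ R : Polynomial K, R ≠ 0 ∧ ((R = P ∧ P.natDegree = d) ∨
      (R = Q ∧ Q.natDegree = d)) := by
    rcases hlead with h1 | h1
    · exact ⟨P, h1.1, Or.inl ⟨rfl, h1.2⟩⟩
    · exact ⟨Q, h1.1, Or.inr ⟨rfl, h1.2⟩⟩
  have hbadfin := ((((coeff_finite P).union (coeff_finite Q)).union (coeff_finite A)).union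
    (coeff_finite B)).union (fv_support_finite (Polynomial.leadingCoeff_ne_zero.mpr hR0))
  set Bd : Set (HeightOneSpectrum (𝓞 K)) :=
    (((({v | ¬ ∀ i, fv v (P.coeff i) ≤ 1} ∪ {v | ¬ ∀ i, fv v (Q.coeff i) ≤ 1}) ∪
      {v | ¬ ∀ i, fv v (A.coeff i) ≤ 1}) ∪ {v | ¬ ∀ i, fv v (B.coeff i) ≤ 1}) ∪
      {v | fv v R.leadingCoeff ≠ 1}) with hBd
  have hgood : ∀ v, v ∉ Bd → ∀ x : K, max (fv v (P.eval x)) (fv v (Q.eval x)) =
      max (fv v x) 1 ^ d := by
    intro v hv x
    simp only [hBd, Set.mem_union, Set.mem_ofPred_eq, not_or, not_not] at hv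
    obtain ⟨⟨⟨⟨h1, h2⟩, h3⟩, h4⟩, h5⟩ := hv
    refine na_eq (fv v) (fv_na v) P Q A B hAB d (le_max_left _ _) (le_max_right _ _)
      h1 h2 h3 h4 ?_ x
    rcases hR with ⟨rfl, h6⟩ | ⟨rfl, h6⟩
    · exact Or.inl ⟨h5, h6⟩
    · exact Or.inr ⟨h5, h6⟩
  refine ⟨fun v => Sum.elim (fun w : InfinitePlace K => b0 (Sum.inl w))
    (fun v : HeightOneSpectrum (𝓞 K) => if v ∈ Bd then b0 (Sum.inr v) else 0) v, ?_, ?_, ?_⟩
  · intro v
    rcases v with w | v
    · exact hb0 _
    · simp only [Sum.elim_inr]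
      split_ifs
      · exact hb0 _
      · exact le_rfl
  · refine hbadfin.subset ?_
    intro v hv
    rw [Set.mem_ofPred_eq] at hv
    by_contra hcon
    apply hv
    simp only [Sum.elim_inr]
    rw [if_neg hcon]
  · intro x
    refine ⟨(hb (Sum.inl w0) x).1, fun v => ?_⟩
    rcases v with w | v
    · exact (hb (Sum.inl w) x).2
    · simp only [Sum.elim_inr]
      split_ifs with hv
      · exact (hb (Sum.inr v) x).2
      · have h1 := hgood v hv x
        have h2 : ln (av (Sum.inr v : Pl K)) (P.eval x, Q.eval x) =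
            Real.log (max (fv v (P.eval x)) (fv v (Q.eval x))) := rfl
        have h3 : ln (av (Sum.inr v : Pl K)) (x, 1) = Real.log (max (fv v x) (fv v 1)) := rfl
        rw [h2, h3, h1, Real.log_pow, map_one, sub_self, abs_zero]

/-- comparison of heights from comparison of sizes -/
lemma height_cmp (b : Pl K → ℝ) (hb0 : ∀ v, 0 ≤ b v)
    (hbf : {v : HeightOneSpectrum (𝓞 K) | b (Sum.inr v) ≠ 0}.Finite) (e : ℕ)
    (T s : K × K) (hT : T ≠ 0) (hs : s ≠ 0)
    (hbs : ∀ v, |ln (av v) T - e * ln (av v) s| ≤ b v) :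
    |hr T - e * hr s| ≤ ∑ w : InfinitePlace K, (w.mult : ℝ) * b (Sum.inl w) +
      ∑ v ∈ hbf.toFinset, b (Sum.inr v) := by
  classical
  have e1 : hr T - e * hr s =
      ∑ w : InfinitePlace K, (w.mult : ℝ) *
        (ln (av (Sum.inl w : Pl K)) T - e * ln (av (Sum.inl w : Pl K)) s) +
      ∑ᶠ v : HeightOneSpectrum (𝓞 K),
        (ln (av (Sum.inr v : Pl K)) T - e * ln (av (Sum.inr v : Pl K)) s) := by
    have hf1 : (Function.support fun v : HeightOneSpectrum (𝓞 K) =>
        (e : ℝ) * ln (av (Sum.inr v : Pl K)) s).Finite := by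
      refine (log_max_support_finite hs).subset ?_
      intro v hv
      rw [Function.mem_support] at hv ⊢
      intro h0
      apply hv
      have : ln (av (Sum.inr v : Pl K)) s = Real.log (max (fv v s.1) (fv v s.2)) := rfl
      rw [this, h0, mul_zero]
    have hf0 : (Function.support fun v : HeightOneSpectrum (𝓞 K) =>
        ln (av (Sum.inr v : Pl K)) T).Finite := log_max_support_finite hT
    rw [finsum_sub_distrib hf0 hf1, ← mul_finsum]
    unfold hr
    have e2 : ∑ w : InfinitePlace K, (w.mult : ℝ) *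
        (ln (av (Sum.inl w : Pl K)) T - e * ln (av (Sum.inl w : Pl K)) s) =
        ∑ w : InfinitePlace K, (w.mult : ℝ) * Real.log (max (w T.1) (w T.2)) -
        e * ∑ w : InfinitePlace K, (w.mult : ℝ) * Real.log (max (w s.1) (w s.2)) := by
      rw [Finset.mul_sum, ← Finset.sum_sub_distrib]
      refine Finset.sum_congr rfl fun w _ => ?_
      have h1 : ln (av (Sum.inl w : Pl K)) T = Real.log (max (w T.1) (w T.2)) := rfl
      have h2 : ln (av (Sum.inl w : Pl K)) s = Real.log (max (w s.1) (w s.2)) := rfl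
      rw [h1, h2]
      ring
    rw [e2]
    have h3 : ∑ᶠ v : HeightOneSpectrum (𝓞 K), ln (av (Sum.inr v : Pl K)) T =
      ∑ᶠ v : HeightOneSpectrum (𝓞 K), Real.log (max (fv v T.1) (fv v T.2)) := rfl
    have h4 : ∑ᶠ v : HeightOneSpectrum (𝓞 K), ln (av (Sum.inr v : Pl K)) s =
      ∑ᶠ v : HeightOneSpectrum (𝓞 K), Real.log (max (fv v s.1) (fv v s.2)) := rfl
    rw [h4, h3]
    ring
  have e3 : ∑ᶠ v : HeightOneSpectrum (𝓞 K),
        (ln (av (Sum.inr v : Pl K)) T - e * ln (av (Sum.inr v : Pl K)) s) =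
      ∑ v ∈ hbf.toFinset,
        (ln (av (Sum.inr v : Pl K)) T - e * ln (av (Sum.inr v : Pl K)) s) := by
    refine finsum_eq_sum_of_support_subset _ ?_
    intro v hv
    rw [Set.Finite.coe_toFinset, Set.mem_ofPred_eq]
    intro h0
    rw [Function.mem_support] at hv
    apply hv
    have h1 := hbs (Sum.inr v)
    rw [h0] at h1
    exact abs_eq_zero.mp (le_antisymm h1 (abs_nonneg _))
  rw [e1, e3]
  refine (abs_add_le _ _).trans (add_le_add ?_ ?_)
  · refine (Finset.abs_sum_le_sum_abs _ _).trans (Finset.sum_le_sum fun w _ => ?_)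
    rw [abs_mul, abs_of_nonneg (Nat.cast_nonneg _ : (0 : ℝ) ≤ w.mult)]
    exact mul_le_mul_of_nonneg_left (hbs _) (Nat.cast_nonneg _)
  · refine (Finset.abs_sum_le_sum_abs _ _).trans (Finset.sum_le_sum fun v _ => ?_)
    exact hbs _

end Pool.Agent.Y728.QS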